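import Mathlib

set_option autoImplicit false

namespace Pool.Agent.Results.MP_f6a359_co.Counter

/-- Total domination number: least size of a set `S` such that every vertex has a neighbour in `S`. -/
noncomputable def gammaT {V : Type} (G : SimpleGraph V) : ℕ :=
  sInf {k : ℕ | ∃ S : Finset V, S.card = k ∧ ∀ v : V, ∃ u ∈ S, G.Adj v u}

/-- Path covering number: least number of paths such that each vertex lies on exactly one. -/
noncomputable def pathCover {V : Type} (G : SimpleGraph V) : ℕ :=
  sInf {k : ℕ | ∃ (a b : Fin k → V) (p : ∀ i, G.Walk (a i) (b i)),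
    (∀ i, (p i).IsPath) ∧ ∀ v : V, ∃! i, v ∈ (p i).support}

def adjB (x y : Fin 37) : Bool :=
  x != y && (if x.val = 36 then y.val % 9 ≤ 1 else if y.val = 36 then x.val % 9 ≤ 1
    else (x.val / 9 == y.val / 9 && (2 ≤ x.val % 9 || 2 ≤ y.val % 9)))

def G0 : SimpleGraph (Fin 37) where
  Adj x y := adjB x y = true
  symm := ⟨by decide +kernel⟩
  loopless := ⟨by decide +kernel⟩

instance instAdj : DecidableRel G0.Adj := fun x y => inferInstanceAs (Decidable (adjB x y = true))

lemma reg : G0.IsRegularOfDegree 8 := by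
  intro v
  rw [← SimpleGraph.card_neighborFinset_eq_degree, SimpleGraph.neighborFinset_eq_filter]
  revert v
  decide +kernel

lemma near : ∀ x : Fin 37, x = 36 ∨ G0.Adj x 36 ∨ ∃ y, G0.Adj x y ∧ G0.Adj y 36 := by
  decide +kernel

lemma conn : G0.Connected := by
  have key : ∀ x : Fin 37, G0.Reachable x 36 := by
    intro x
    rcases near x with rfl | h | ⟨y, h1, h2⟩
    · rfl
    · exact h.reachable
    · exact h1.reachable.trans h2.reachable
  exact ⟨fun u v => (key u).trans (key v).symm⟩

lemma blk : ∀ x y : Fin 37, G0.Adj x y → x ≠ 36 → y ≠ 36 → x.val / 9 = y.val / 9 := by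
  decide +kernel

lemma walkA : ∀ {u v : Fin 37} (p : G0.Walk u v), (36 : Fin 37) ∉ p.support →
    u.val / 9 = v.val / 9
  | _, _, .nil, _ => rfl
  | _, _, .cons h q, hs => by
    rw [SimpleGraph.Walk.support_cons, List.mem_cons, not_or] at hs
    have h1 := walkA q hs.2
    have h2 := blk _ _ h (fun e => hs.1 e.symm) (fun e => hs.2 (e ▸ q.start_mem_support))
    omega

lemma walkB {u v x : Fin 37} (p : G0.Walk u v) (hp : p.IsPath) (hx : x ∈ p.support)
    (hs : x ≠ 36) : x.val / 9 = u.val / 9 ∨ x.val / 9 = v.val / 9 := by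
  by_cases h1 : (36 : Fin 37) ∈ (p.takeUntil x hx).support
  · right
    refine walkA (p.dropUntil x hx) fun h2 => ?_
    have hn := hp.support_nodup
    rw [← p.take_spec hx, SimpleGraph.Walk.support_append] at hn
    have h3 : (36 : Fin 37) ∈ (p.dropUntil x hx).support.tail := by
      rw [SimpleGraph.Walk.mem_support_iff] at h2
      rcases h2 with h2 | h2
      · exact absurd h2.symm hs
      · exact h2
    exact (List.nodup_append.1 hn).2.2 _ h1 _ h3 rfl
  · left
    exact (walkA _ h1).symm

lemma three_le : 3 ≤ pathCover G0 := by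
  have hne : {k : ℕ | ∃ (a b : Fin k → Fin 37) (p : ∀ i, G0.Walk (a i) (b i)),
      (∀ i, (p i).IsPath) ∧ ∀ v : Fin 37, ∃! i, v ∈ (p i).support}.Nonempty :=
    ⟨37, id, id, fun i => .nil, fun i => SimpleGraph.Walk.IsPath.nil, fun v =>
      ⟨v, by simp, fun y hy => by simp at hy; exact hy.symm⟩⟩
  obtain ⟨a, b, p, hp, hc⟩ := Nat.sInf_mem hne
  obtain ⟨i0, hi0, hu⟩ := hc 36
  have hsub : Finset.range 4 ⊆
      insert ((b i0).val / 9) (Finset.univ.image fun i => (a i).val / 9) := by
    intro t ht
    have ht' := Finset.mem_range.1 ht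
    obtain ⟨i, hi, -⟩ := hc ⟨9 * t, by omega⟩
    have hx : (⟨9 * t, by omega⟩ : Fin 37) ≠ 36 := by
      intro e; have := congrArg Fin.val e; simp at this; omega
    have e0 : (9 * t) / 9 = t := by omega
    by_cases c : i = i0
    · subst c
      rcases walkB _ (hp i) hi hx with h | h
      · exact Finset.mem_insert_of_mem (Finset.mem_image.2 ⟨i, Finset.mem_univ _, by
          simp only at h; omega⟩)
      · exact Finset.mem_insert.2 (Or.inl (by simp only at h; omega))
    · have h36 : (36 : Fin 37) ∉ (p i).support := fun h => c (hu i h)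
      have := walkA ((p i).takeUntil _ hi)
        (fun h => h36 (SimpleGraph.Walk.support_takeUntil_subset_support _ hi h))
      exact Finset.mem_insert_of_mem (Finset.mem_image.2 ⟨i, Finset.mem_univ _, by
        simp only at this; omega⟩)
  have h1 := Finset.card_le_card hsub
  have h2 := Finset.card_insert_le ((b i0).val / 9) (Finset.univ.image fun i => (a i).val / 9)
  have h3 := Finset.card_image_le (s := Finset.univ) (f := fun i => (a i).val / 9)
  rw [Finset.card_range] at h1
  rw [Finset.card_univ, Fintype.card_fin] at h3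
  unfold pathCover
  omega

lemma le_five : gammaT G0 ≤ 5 :=
  Nat.sInf_le ⟨{36, 0, 9, 18, 27}, by decide +kernel, by decide +kernel⟩

theorem result :
    ∃ (n r : ℕ) (G : SimpleGraph (Fin n)) (_ : DecidableRel G.Adj),
      1 ≤ r ∧ G.Connected ∧ G.IsRegularOfDegree r ∧ gammaT G < 2 * pathCover G :=
  ⟨37, 8, G0, instAdj, by norm_num, conn, reg, by have := three_le; have := le_five; omega⟩

end Pool.Agent.Results.MP_f6a359_co.Counter
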